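import Mathlib

/-!
# Odd clique minors in stable Kneser graphs

Explicit odd `K_{n-s(k-1)}` expansion in the interlacing graph of the `s`-stable `k`-subsets of
the `n`-cycle, for all `s ≥ 2`, `k ≥ 1` and `n ≥ s k`.
-/

namespace Pool.Agent.TH702.SG

open Finset

/-- `G` has a `K_t` minor: `t` pairwise disjoint vertex sets, each inducing a connected subgraph,
every two joined by an edge. -/
def HasCliqueMinor {V : Type*} (G : SimpleGraph V) (t : ℕ) : Prop :=
  ∃ f : Fin t → Set V, (∀ i, (G.induce (f i)).Connected) ∧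
    (∀ i j, i ≠ j → Disjoint (f i) (f j)) ∧
    (∀ i j, i ≠ j → ∃ u ∈ f i, ∃ v ∈ f j, G.Adj u v)

/-- The subgraph of `G` formed by the edges whose two ends have different colours. -/
def bichromatic {V : Type*} (G : SimpleGraph V) (c : V → Bool) : SimpleGraph V where
  Adj u v := G.Adj u v ∧ c u ≠ c v
  symm := ⟨fun _ _ h => ⟨h.1.symm, h.2.symm⟩⟩
  loopless := ⟨fun _ h => h.2 rfl⟩

/-- `G` has an odd `K_t` minor: for some colouring of the vertices of `G` with two colours there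
are `t` pairwise disjoint vertex sets, each connected by edges with two colours, every two joined
by an edge with one colour. -/
def HasOddCliqueMinor {V : Type*} (G : SimpleGraph V) (t : ℕ) : Prop :=
  ∃ (c : V → Bool) (f : Fin t → Set V),
    (∀ i, ((bichromatic G c).induce (f i)).Connected) ∧
    (∀ i j, i ≠ j → Disjoint (f i) (f j)) ∧
    (∀ i j, i ≠ j → ∃ u ∈ f i, ∃ v ∈ f j, G.Adj u v ∧ c u = c v)

/-- The Hadwiger conjecture for the graph `G`. -/
def Hadwiger {V : Type*} (G : SimpleGraph V) : Prop :=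
  ∀ j : ℕ, ¬ G.Colorable j → HasCliqueMinor G (j + 1)

/-- The odd Hadwiger conjecture for the graph `G`. -/
def OddHadwiger {V : Type*} (G : SimpleGraph V) : Prop :=
  ∀ j : ℕ, ¬ G.Colorable j → HasOddCliqueMinor G (j + 1)

/-- The Kneser graph `KG(n,k)`: its vertices are the `k`-element subsets of `{0, …, n-1}`, and two
of them are adjacent when they are disjoint (and different, which matters only for `k = 0`). -/
def kneserGraph (n k : ℕ) : SimpleGraph {X : Finset ℕ // X ⊆ range n ∧ X.card = k} where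
  Adj X Y := X ≠ Y ∧ Disjoint X.1 Y.1
  symm := ⟨fun _ _ h => ⟨h.1.symm, h.2.symm⟩⟩
  loopless := ⟨fun _ h => h.1 rfl⟩

/-- The `k`-element subsets of `{0, …, n-1}` any two elements of which differ by at least `s`
(`s`-stable sets of the path). -/
abbrev PathStableSet (s n k : ℕ) : Type :=
  {X : Finset ℕ // X ⊆ range n ∧ X.card = k ∧ ∀ x ∈ X, ∀ y ∈ X, x < y → x + s ≤ y}

/-- The disjointness graph of the `s`-stable sets of the path (the almost `s`-stable Kneser
graph). -/
def pathStableKneserGraph (s n k : ℕ) : SimpleGraph (PathStableSet s n k) where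
  Adj X Y := X ≠ Y ∧ Disjoint X.1 Y.1
  symm := ⟨fun _ _ h => ⟨h.1.symm, h.2.symm⟩⟩
  loopless := ⟨fun _ h => h.1 rfl⟩

/-- The `k`-element subsets of the cycle `{0, …, n-1}` any two elements `x < y` of which have
cyclic distance at least `s`: `y - x ≥ s` and `n - (y - x) ≥ s`. -/
abbrev StableSet (s n k : ℕ) : Type :=
  {X : Finset ℕ // X ⊆ range n ∧ X.card = k ∧ ∀ x ∈ X, ∀ y ∈ X, x < y → x + s ≤ y ∧ y + s ≤ x + n}

/-- The `s`-stable Kneser graph; for `s = 2` this is the Schrijver graph `SG(n,k)`. -/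
def stableKneserGraph (s n k : ℕ) : SimpleGraph (StableSet s n k) where
  Adj X Y := X ≠ Y ∧ Disjoint X.1 Y.1
  symm := ⟨fun _ _ h => ⟨h.1.symm, h.2.symm⟩⟩
  loopless := ⟨fun _ h => h.1 rfl⟩

/-- `X` and `Y` interlace: they are disjoint, between any two elements of `X` there is an element
of `Y`, and between any two elements of `Y` there is an element of `X`. -/
def Interlace (X Y : Finset ℕ) : Prop :=
  Disjoint X Y ∧ (∀ x ∈ X, ∀ x' ∈ X, x < x' → ∃ y ∈ Y, x < y ∧ y < x') ∧
    (∀ y ∈ Y, ∀ y' ∈ Y, y < y' → ∃ x ∈ X, y < x ∧ x < y')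

/-- The interlacing graph of the `s`-stable sets: a spanning subgraph of the `s`-stable Kneser
graph. -/
def interlacingGraph (s n k : ℕ) : SimpleGraph (StableSet s n k) where
  Adj X Y := X ≠ Y ∧ Interlace X.1 Y.1
  symm := ⟨fun _ _ h => ⟨h.1.symm, h.2.1.symm, h.2.2.2, h.2.2.1⟩⟩
  loopless := ⟨fun _ h => h.1 rfl⟩

/-! ### Generalities -/

lemma HasOddCliqueMinor.toHasCliqueMinor {V : Type*} {G : SimpleGraph V} {t : ℕ}
    (h : HasOddCliqueMinor G t) : HasCliqueMinor G t := by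
  obtain ⟨c, f, h1, h2, h3⟩ := h
  refine ⟨f, fun i => ?_, h2, fun i j hij => ?_⟩
  · refine (h1 i).mono ?_
    intro u v huv
    exact huv.1
  · obtain ⟨u, hu, v, hv, h, -⟩ := h3 i j hij
    exact ⟨u, hu, v, hv, h⟩

lemma OddHadwiger.hadwiger {V : Type*} {G : SimpleGraph V} (h : OddHadwiger G) : Hadwiger G :=
  fun j hj => (h j hj).toHasCliqueMinor

lemma HasOddCliqueMinor.mono {V : Type*} {G : SimpleGraph V} {s t : ℕ}
    (h : HasOddCliqueMinor G t) (hst : s ≤ t) : HasOddCliqueMinor G s := by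
  obtain ⟨c, f, h1, h2, h3⟩ := h
  refine ⟨c, fun i => f (Fin.castLE hst i), fun i => h1 _, fun i j hij => h2 _ _ ?_,
    fun i j hij => h3 _ _ ?_⟩ <;>
  · intro h
    exact hij (Fin.castLE_injective hst h)

lemma HasOddCliqueMinor.of_isContained {V W : Type*} {H : SimpleGraph V} {G : SimpleGraph W}
    {t : ℕ} (h : HasOddCliqueMinor H t) (hHG : H.IsContained G) : HasOddCliqueMinor G t := by
  classical
  obtain ⟨c, f, h1, h2, h3⟩ := h
  obtain ⟨g⟩ := hHG
  have hg : Function.Injective g := g.injective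
  set c' : W → Bool := Function.extend g c (fun _ => false) with hc'
  have hc : ∀ v, c' (g v) = c v := fun v => hg.extend_apply c _ v
  refine ⟨c', fun i => g '' (f i), fun i => ?_, fun i j hij => ?_, fun i j hij => ?_⟩
  · let φ : (bichromatic H c).induce (f i) →g (bichromatic G c').induce (g '' (f i)) :=
      { toFun := fun x => ⟨g x.1, x.1, x.2, rfl⟩
        map_rel' := by
          intro a b hab
          have hab' : H.Adj a.1 b.1 ∧ c a.1 ≠ c b.1 := hab
          refine (⟨g.toHom.map_adj hab'.1, ?_⟩ : G.Adj (g a.1) (g b.1) ∧ c' (g a.1) ≠ c' (g b.1))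
          rw [hc, hc]
          exact hab'.2 }
    refine SimpleGraph.Connected.map φ ?_ (h1 i)
    rintro ⟨y, x, hx, rfl⟩
    exact ⟨⟨x, hx⟩, rfl⟩
  · exact Set.disjoint_image_of_injective hg (h2 i j hij)
  · obtain ⟨u, hu, v, hv, huv, hcc⟩ := h3 i j hij
    refine ⟨g u, ⟨u, hu, rfl⟩, g v, ⟨v, hv, rfl⟩, g.toHom.map_adj huv, ?_⟩
    rw [hc, hc]
    exact hcc

lemma connected_single {V : Type*} (G : SimpleGraph V) {S : Set V} {v : V} (hv : v ∈ S)
    (h : ∀ u ∈ S, u = v) : (G.induce S).Connected := by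
  rw [SimpleGraph.connected_iff_exists_forall_reachable]
  refine ⟨⟨v, hv⟩, ?_⟩
  rintro ⟨u, hu⟩
  have : (⟨u, hu⟩ : S) = ⟨v, hv⟩ := Subtype.ext (h u hu)
  rw [this]

/-- The shape of all our expansions: `s` single vertices `P a` and `r` connected sets `D b`. -/
lemma expansion {V : Type*} (G : SimpleGraph V) (c : V → Bool) {s r : ℕ} (P : Fin s → V)
    (D : Fin r → Set V) (u w : Fin r → V)
    (hP : ∀ a, c (P a) = false) (hu : ∀ b, u b ∈ D b ∧ c (u b) = false)
    (hw : ∀ b, w b ∈ D b ∧ c (w b) = false)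
    (hcon : ∀ b, ((bichromatic G c).induce (D b)).Connected)
    (hPP : ∀ a a', a < a' → G.Adj (P a) (P a'))
    (hPu : ∀ a b, 1 ≤ a.1 → G.Adj (P a) (u b))
    (hPw : ∀ a b, a.1 = 0 → G.Adj (P a) (w b))
    (hwu : ∀ b b', b < b' → G.Adj (w b) (u b'))
    (hDD : ∀ b b', b < b' → Disjoint (D b) (D b'))
    (hPD : ∀ a b, P a ∉ D b) : HasOddCliqueMinor G (s + r) := by
  let g : Fin s ⊕ Fin r → Set V := Sum.elim (fun a => {P a}) D
  have h1 : ∀ x, ((bichromatic G c).induce (g x)).Connected := by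
    rintro (a | b)
    · exact connected_single _ (v := P a) rfl fun u hu => hu
    · exact hcon b
  have h2 : ∀ x y, x ≠ y → Disjoint (g x) (g y) := by
    rintro (a | b) (a' | b') hxy
    · have haa : a ≠ a' := fun h => hxy (by rw [h])
      have hne : P a ≠ P a' := by
        rcases lt_or_gt_of_ne haa with h | h
        · exact (hPP _ _ h).ne
        · exact (hPP _ _ h).ne'
      exact Set.disjoint_singleton.2 hne
    · exact Set.disjoint_singleton_left.2 (hPD a b')
    · exact Set.disjoint_singleton_right.2 (hPD a' b)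
    · have hbb : b ≠ b' := fun h => hxy (by rw [h])
      rcases lt_or_gt_of_ne hbb with h | h
      · exact hDD _ _ h
      · exact (hDD _ _ h).symm
  have h4 : ∀ a b, ∃ y ∈ D b, G.Adj (P a) y ∧ c (P a) = c y := by
    intro a b
    rcases Nat.eq_zero_or_pos a.1 with h | h
    · exact ⟨w b, (hw b).1, hPw a b h, (hP a).trans (hw b).2.symm⟩
    · exact ⟨u b, (hu b).1, hPu a b h, (hP a).trans (hu b).2.symm⟩
  have h3 : ∀ x y, x ≠ y → ∃ p ∈ g x, ∃ q ∈ g y, G.Adj p q ∧ c p = c q := by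
    rintro (a | b) (a' | b') hxy
    · have haa : a ≠ a' := fun h => hxy (by rw [h])
      refine ⟨P a, rfl, P a', rfl, ?_, (hP a).trans (hP a').symm⟩
      rcases lt_or_gt_of_ne haa with h | h
      · exact hPP _ _ h
      · exact (hPP _ _ h).symm
    · obtain ⟨y, hy, h, h'⟩ := h4 a b'
      exact ⟨P a, rfl, y, hy, h, h'⟩
    · obtain ⟨y, hy, h, h'⟩ := h4 a' b
      exact ⟨y, hy, P a', rfl, h.symm, h'.symm⟩
    · have hbb : b ≠ b' := fun h => hxy (by rw [h])
      rcases lt_or_gt_of_ne hbb with h | h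
      · exact ⟨w b, (hw b).1, u b', (hu b').1, hwu _ _ h, (hw b).2.trans (hu b').2.symm⟩
      · exact ⟨u b, (hu b).1, w b', (hw b').1, (hwu _ _ h).symm, (hu b).2.trans (hw b').2.symm⟩
  refine ⟨c, fun i => g (finSumFinEquiv.symm i), fun i => h1 _, fun i j hij => h2 _ _ ?_,
    fun i j hij => h3 _ _ ?_⟩ <;>
  · intro h
    exact hij (finSumFinEquiv.symm.injective h)

/-! ### Stable sets given by functions -/

/-- A function whose values at `0, …, k-1` form an `s`-stable set of the `n`-cycle. -/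
def Good (s n k : ℕ) (φ : ℕ → ℕ) : Prop :=
  (∀ i < k, φ i < n) ∧ (∀ i, i + 1 < k → φ i + s ≤ φ (i + 1)) ∧ (φ (k - 1) + s ≤ φ 0 + n)

lemma Good.mono {s n k : ℕ} {φ : ℕ → ℕ} (h : Good s n k φ) {i j : ℕ} (hij : i ≤ j) (hj : j < k) :
    φ i ≤ φ j := by
  induction j, hij using Nat.le_induction with
  | base => exact le_refl _
  | succ j hij ih =>
    have h1 := ih (by omega)
    have h2 := h.2.1 j hj
    omega

lemma Good.gap {s n k : ℕ} {φ : ℕ → ℕ} (h : Good s n k φ) {i j : ℕ} (hij : i < j) (hj : j < k) :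
    φ i + s ≤ φ j :=
  (h.2.1 i (by omega)).trans (h.mono hij hj)

/-- The set of values. -/
def im (k : ℕ) (φ : ℕ → ℕ) : Finset ℕ := (range k).image φ

lemma mem_im {k : ℕ} {φ : ℕ → ℕ} {x : ℕ} : x ∈ im k φ ↔ ∃ i, i < k ∧ φ i = x := by
  simp [im]

lemma good_mem {s n k : ℕ} (hs : 1 ≤ s) {φ : ℕ → ℕ} (h : Good s n k φ) :
    im k φ ⊆ range n ∧ (im k φ).card = k ∧
      ∀ x ∈ im k φ, ∀ y ∈ im k φ, x < y → x + s ≤ y ∧ y + s ≤ x + n := by
  refine ⟨?_, ?_, ?_⟩
  · intro x hx
    obtain ⟨i, hi, rfl⟩ := mem_im.1 hx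
    exact mem_range.2 (h.1 i hi)
  · unfold im
    rw [card_image_of_injOn, card_range]
    intro i hi j hj hij
    have hi : i < k := by simpa using hi
    have hj : j < k := by simpa using hj
    have hij : φ i = φ j := hij
    rcases lt_trichotomy i j with hlt | heq | hgt
    · have := h.gap hlt hj
      omega
    · exact heq
    · have := h.gap hgt hi
      omega
  · intro x hx y hy hxy
    obtain ⟨i, hi, rfl⟩ := mem_im.1 hx
    obtain ⟨j, hj, rfl⟩ := mem_im.1 hy
    have hij : i < j := by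
      by_contra hcon
      have := h.mono (not_lt.1 hcon) hi
      omega
    refine ⟨h.gap hij hj, ?_⟩
    have h1 := h.mono (show j ≤ k - 1 by omega) (by omega)
    have h2 := h.mono (show 0 ≤ i by omega) hi
    have h3 := h.2.2
    omega

/-- The vertex given by a good function. -/
def vert {s n k : ℕ} (hs : 1 ≤ s) {φ : ℕ → ℕ} (h : Good s n k φ) : StableSet s n k :=
  ⟨im k φ, good_mem hs h⟩

lemma interlace_of {k : ℕ} {φ ψ : ℕ → ℕ} (h1 : ∀ i < k, φ i < ψ i)
    (h2 : ∀ i, i + 1 < k → ψ i < φ (i + 1)) : Interlace (im k φ) (im k ψ) := by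
  have hmono : ∀ i j, i ≤ j → j < k → φ i ≤ φ j := by
    intro i j hij
    induction j, hij using Nat.le_induction with
    | base => intro _; exact le_refl _
    | succ j hij ih =>
      intro hj
      have a1 := ih (by omega)
      have a2 := h1 j (by omega)
      have a3 := h2 j hj
      omega
  have hlt : ∀ i j, i < j → j < k → ψ i < φ j := fun i j hij hj =>
    (h2 i (by omega)).trans_le (hmono (i + 1) j hij hj)
  refine ⟨?_, ?_, ?_⟩
  · rw [Finset.disjoint_left]
    intro x hx hx'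
    obtain ⟨i, hi, rfl⟩ := mem_im.1 hx
    obtain ⟨j, hj, hij⟩ := mem_im.1 hx'
    rcases Nat.lt_or_ge j i with h | h
    · have := hlt j i h hi
      omega
    · have := hmono i j h hj
      have := h1 j hj
      omega
  · intro x hx x' hx' hxx
    obtain ⟨i, hi, rfl⟩ := mem_im.1 hx
    obtain ⟨j, hj, rfl⟩ := mem_im.1 hx'
    have hij : i < j := by
      by_contra hcon
      have := hmono j i (not_lt.1 hcon) hi
      omega
    exact ⟨ψ i, mem_im.2 ⟨i, hi, rfl⟩, h1 i hi, hlt i j hij hj⟩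
  · intro x hx x' hx' hxx
    obtain ⟨i, hi, rfl⟩ := mem_im.1 hx
    obtain ⟨j, hj, rfl⟩ := mem_im.1 hx'
    have hij : i < j := by
      by_contra hcon
      rcases (not_lt.1 hcon).lt_or_eq with h | h
      · have := hlt j i h hi
        have := h1 i hi
        omega
      · subst h
        omega
    exact ⟨φ j, mem_im.2 ⟨j, hj, rfl⟩, hlt i j hij hj, h1 j hj⟩

lemma adj_vert {s n k : ℕ} (hs : 1 ≤ s) (hk : 1 ≤ k) {φ ψ : ℕ → ℕ} (h : Good s n k φ)
    (h' : Good s n k ψ) (h1 : ∀ i < k, φ i < ψ i) (h2 : ∀ i, i + 1 < k → ψ i < φ (i + 1)) :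
    (interlacingGraph s n k).Adj (vert hs h) (vert hs h') := by
  have hI := interlace_of h1 h2
  refine ⟨?_, hI⟩
  intro he
  have h0 : φ 0 ∈ im k φ := mem_im.2 ⟨0, hk, rfl⟩
  have he' : im k φ = im k ψ := congrArg Subtype.val he
  exact Finset.disjoint_left.1 hI.1 h0 (he' ▸ h0)

/-- `{a, a+s, …, a+(k-1)s}`. -/
def gP (s a i : ℕ) : ℕ := a + s * i

/-- `{s, 2s, …, (k-1)s, m}`. -/
def gU (s k m i : ℕ) : ℕ := if i + 1 < k then s * i + s else m

/-- `{s-1, 2s-1, …, (k-1)s-1, m}`. -/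
def gW (s k m i : ℕ) : ℕ := if i + 1 < k then s * i + s - 1 else m

/-- `{s-2, 2s-2, …, (k-1)s-2, m-1}`. -/
def gZ (s k m i : ℕ) : ℕ := if i + 1 < k then s * i + s - 2 else m - 1

lemma good_P {s n k a : ℕ} (hk : 1 ≤ k) (hn : s * k ≤ n) (ha : a < s) :
    Good s n k (gP s a) := by
  obtain ⟨K, rfl⟩ : ∃ K, k = K + 1 := ⟨k - 1, by omega⟩
  rw [Nat.mul_succ] at hn
  refine ⟨fun i hi => ?_, fun i hi => ?_, ?_⟩
  · have := Nat.mul_le_mul_left s (show i ≤ K by omega)
    unfold gP
    omega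
  · unfold gP
    rw [Nat.mul_succ]
    omega
  · unfold gP
    rw [Nat.add_sub_cancel]
    omega

lemma good_U {s n k m : ℕ} (hs : 2 ≤ s) (hk : 1 ≤ k) (hm : s * k ≤ m) (hmn : m < n) :
    Good s n k (gU s k m) := by
  obtain ⟨K, rfl⟩ : ∃ K, k = K + 1 := ⟨k - 1, by omega⟩
  rw [Nat.mul_succ] at hm
  refine ⟨fun i hi => ?_, fun i hi => ?_, ?_⟩
  · have := Nat.mul_le_mul_left s (show i ≤ K by omega)
    unfold gU
    split_ifs <;> omega
  · have := Nat.mul_le_mul_left s (show i + 1 ≤ K by omega)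
    rw [Nat.mul_succ] at this
    unfold gU
    rw [Nat.mul_succ]
    split_ifs <;> omega
  · unfold gU
    rw [Nat.add_sub_cancel, Nat.mul_zero]
    split_ifs <;> omega

lemma good_W {s n k m : ℕ} (hs : 2 ≤ s) (hk : 1 ≤ k) (hm : s * k ≤ m) (hmn : m < n) :
    Good s n k (gW s k m) := by
  obtain ⟨K, rfl⟩ : ∃ K, k = K + 1 := ⟨k - 1, by omega⟩
  rw [Nat.mul_succ] at hm
  refine ⟨fun i hi => ?_, fun i hi => ?_, ?_⟩
  · have := Nat.mul_le_mul_left s (show i ≤ K by omega)
    unfold gW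
    split_ifs <;> omega
  · have := Nat.mul_le_mul_left s (show i + 1 ≤ K by omega)
    rw [Nat.mul_succ] at this
    unfold gW
    rw [Nat.mul_succ]
    split_ifs <;> omega
  · unfold gW
    rw [Nat.add_sub_cancel, Nat.mul_zero]
    split_ifs <;> omega

lemma good_Z {s n k m : ℕ} (hs : 2 ≤ s) (hk : 2 ≤ k) (hm : s * k ≤ m) (hmn : m < n) :
    Good s n k (gZ s k m) := by
  obtain ⟨K, rfl⟩ : ∃ K, k = K + 1 := ⟨k - 1, by omega⟩
  rw [Nat.mul_succ] at hm
  refine ⟨fun i hi => ?_, fun i hi => ?_, ?_⟩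
  · have := Nat.mul_le_mul_left s (show i ≤ K by omega)
    unfold gZ
    split_ifs <;> omega
  · have := Nat.mul_le_mul_left s (show i + 1 ≤ K by omega)
    rw [Nat.mul_succ] at this
    unfold gZ
    rw [Nat.mul_succ]
    split_ifs <;> omega
  · unfold gZ
    rw [Nat.add_sub_cancel, Nat.mul_zero]
    split_ifs <;> omega

lemma adj_PP {s n k a a' : ℕ} (hs : 1 ≤ s) (hk : 1 ≤ k) (h : Good s n k (gP s a))
    (h' : Good s n k (gP s a')) (haa : a < a') (ha' : a' < s) :
    (interlacingGraph s n k).Adj (vert hs h) (vert hs h') := by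
  refine adj_vert hs hk h h' (fun i hi => ?_) (fun i hi => ?_)
  · unfold gP
    omega
  · unfold gP
    rw [Nat.mul_succ]
    omega

lemma adj_PU {s n k a m : ℕ} (hs : 1 ≤ s) (hk : 1 ≤ k) (hm : s * k ≤ m)
    (h : Good s n k (gP s a)) (h' : Good s n k (gU s k m)) (ha : 1 ≤ a) (ha' : a < s) :
    (interlacingGraph s n k).Adj (vert hs h) (vert hs h') := by
  refine adj_vert hs hk h h' (fun i hi => ?_) (fun i hi => ?_)
  · have := Nat.mul_le_mul_left s (show i + 1 ≤ k by omega)
    rw [Nat.mul_succ] at this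
    unfold gP gU
    split_ifs <;> omega
  · unfold gP gU
    rw [Nat.mul_succ]
    split_ifs; omega

lemma adj_PW {s n k m : ℕ} (hs : 2 ≤ s) (hs' : 1 ≤ s) (hk : 1 ≤ k) (hm : s * k ≤ m)
    (h : Good s n k (gP s 0)) (h' : Good s n k (gW s k m)) :
    (interlacingGraph s n k).Adj (vert hs' h) (vert hs' h') := by
  refine adj_vert hs' hk h h' (fun i hi => ?_) (fun i hi => ?_)
  · have := Nat.mul_le_mul_left s (show i + 1 ≤ k by omega)
    rw [Nat.mul_succ] at this
    unfold gP gW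
    split_ifs <;> omega
  · unfold gP gW
    rw [Nat.mul_succ]
    split_ifs; omega

lemma adj_WU {s n k m m' : ℕ} (hs : 2 ≤ s) (hs' : 1 ≤ s) (hk : 1 ≤ k) (hm : s * k ≤ m)
    (hmm : m < m') (h : Good s n k (gW s k m)) (h' : Good s n k (gU s k m')) :
    (interlacingGraph s n k).Adj (vert hs' h) (vert hs' h') := by
  refine adj_vert hs' hk h h' (fun i hi => ?_) (fun i hi => ?_)
  · have := Nat.mul_le_mul_left s (show i + 1 ≤ k by omega)
    rw [Nat.mul_succ] at this
    unfold gW gU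
    split_ifs <;> omega
  · have := Nat.mul_le_mul_left s (show i + 2 ≤ k by omega)
    rw [show i + 2 = i + 1 + 1 from rfl, Nat.mul_succ, Nat.mul_succ] at this
    unfold gW gU
    rw [Nat.mul_succ]
    split_ifs <;> omega

lemma adj_ZU {s n k m : ℕ} (hs : 3 ≤ s) (hs' : 1 ≤ s) (hk : 1 ≤ k) (hm : s * k ≤ m)
    (h : Good s n k (gZ s k m)) (h' : Good s n k (gU s k m)) :
    (interlacingGraph s n k).Adj (vert hs' h) (vert hs' h') := by
  refine adj_vert hs' hk h h' (fun i hi => ?_) (fun i hi => ?_)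
  · have := Nat.mul_le_mul_left s (show i + 1 ≤ k by omega)
    rw [Nat.mul_succ] at this
    unfold gZ gU
    split_ifs <;> omega
  · have := Nat.mul_le_mul_left s (show i + 2 ≤ k by omega)
    rw [show i + 2 = i + 1 + 1 from rfl, Nat.mul_succ, Nat.mul_succ] at this
    unfold gZ gU
    rw [Nat.mul_succ]
    split_ifs <;> omega

lemma adj_ZW {s n k m : ℕ} (hs : 3 ≤ s) (hs' : 1 ≤ s) (hk : 1 ≤ k) (hm : s * k ≤ m)
    (h : Good s n k (gZ s k m)) (h' : Good s n k (gW s k m)) :
    (interlacingGraph s n k).Adj (vert hs' h) (vert hs' h') := by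
  refine adj_vert hs' hk h h' (fun i hi => ?_) (fun i hi => ?_)
  · have := Nat.mul_le_mul_left s (show i + 1 ≤ k by omega)
    rw [Nat.mul_succ] at this
    unfold gZ gW
    split_ifs <;> omega
  · have := Nat.mul_le_mul_left s (show i + 2 ≤ k by omega)
    rw [show i + 2 = i + 1 + 1 from rfl, Nat.mul_succ, Nat.mul_succ] at this
    unfold gZ gW
    rw [Nat.mul_succ]
    split_ifs <;> omega

end Pool.Agent.TH702.SG
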