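import Pool.Agent.TH702.SG.Gen

/-!
# Odd clique minors in stable Kneser graphs: the expansions
-/

namespace Pool.Agent.TH702.SG

open Finset

lemma le_P {s k a x : ℕ} (hk : 1 ≤ k) (hx : x ∈ im k (gP s a)) : a ≤ x ∧ x + s ≤ a + s * k := by
  obtain ⟨i, hi, rfl⟩ := mem_im.1 hx
  have := Nat.mul_le_mul_left s (show i + 1 ≤ k by omega)
  rw [Nat.mul_succ] at this
  unfold gP
  omega

lemma top_U {s k m : ℕ} (hk : 1 ≤ k) : m ∈ im k (gU s k m) := by
  refine mem_im.2 ⟨k - 1, by omega, ?_⟩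
  unfold gU
  split_ifs <;> omega

lemma top_W {s k m : ℕ} (hk : 1 ≤ k) : m ∈ im k (gW s k m) := by
  refine mem_im.2 ⟨k - 1, by omega, ?_⟩
  unfold gW
  split_ifs <;> omega

lemma top_Z {s k m : ℕ} (hk : 1 ≤ k) : m - 1 ∈ im k (gZ s k m) := by
  refine mem_im.2 ⟨k - 1, by omega, ?_⟩
  unfold gZ
  split_ifs <;> omega

lemma bot_Z {s k m : ℕ} (hk : 2 ≤ k) : s - 2 ∈ im k (gZ s k m) := by
  refine mem_im.2 ⟨0, by omega, ?_⟩
  unfold gZ
  rw [Nat.mul_zero]
  split_ifs <;> omega

lemma le_U {s k m x : ℕ} (hk : 1 ≤ k) (hm : s * k ≤ m) (hx : x ∈ im k (gU s k m)) :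
    s ≤ x ∧ x ≤ m := by
  obtain ⟨i, hi, rfl⟩ := mem_im.1 hx
  have h1 := Nat.mul_le_mul_left s (show i + 1 ≤ k by omega)
  have h2 := Nat.mul_le_mul_left s hk
  rw [Nat.mul_succ] at h1
  rw [Nat.mul_one] at h2
  unfold gU
  split_ifs <;> omega

lemma le_W {s k m x : ℕ} (hk : 1 ≤ k) (hm : s * k ≤ m) (hx : x ∈ im k (gW s k m)) :
    s ≤ x + 1 ∧ x ≤ m := by
  obtain ⟨i, hi, rfl⟩ := mem_im.1 hx
  have h1 := Nat.mul_le_mul_left s (show i + 1 ≤ k by omega)
  have h2 := Nat.mul_le_mul_left s hk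
  rw [Nat.mul_succ] at h1
  rw [Nat.mul_one] at h2
  unfold gW
  split_ifs <;> omega

lemma le_Z {s k m x : ℕ} (hs : 2 ≤ s) (hk : 1 ≤ k) (hm : s * k ≤ m)
    (hx : x ∈ im k (gZ s k m)) : x + 1 ≤ m := by
  obtain ⟨i, hi, rfl⟩ := mem_im.1 hx
  have h1 := Nat.mul_le_mul_left s (show i + 1 ≤ k by omega)
  have h2 := Nat.mul_le_mul_left s hk
  rw [Nat.mul_succ] at h1
  rw [Nat.mul_one] at h2
  unfold gZ
  split_ifs <;> omega

/-! ### The case `s ≥ 3` -/

theorem interlacing_odd_three {s n k : ℕ} (hs : 3 ≤ s) (hk : 1 ≤ k) (hn : s * k ≤ n) :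
    HasOddCliqueMinor (interlacingGraph s n k) (s + (n - s * k)) := by
  classical
  have hs1 : 1 ≤ s := by omega
  have hs2 : 2 ≤ s := by omega
  set c : StableSet s n k → Bool :=
    fun X => decide (∃ m, s * k ≤ m ∧ 2 ≤ k ∧ X.1 = im k (gZ s k m)) with hc
  have hm : ∀ b : Fin (n - s * k), s * k ≤ s * k + b.1 := fun b => by omega
  have hmn : ∀ b : Fin (n - s * k), s * k + b.1 < n := fun b => by have := b.2; omega
  have cU : ∀ (m : ℕ) (X : StableSet s n k), s * k ≤ m → X.1 = im k (gU s k m) →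
      c X = false := by
    intro m X hm hX
    refine decide_eq_false ?_
    rintro ⟨m', -, hk2, hX'⟩
    have h0 : s - 2 ∈ X.1 := hX' ▸ bot_Z hk2
    rw [hX] at h0
    have := le_U hk hm h0
    omega
  have cW : ∀ (m : ℕ) (X : StableSet s n k), s * k ≤ m → X.1 = im k (gW s k m) →
      c X = false := by
    intro m X hm hX
    refine decide_eq_false ?_
    rintro ⟨m', -, hk2, hX'⟩
    have h0 : s - 2 ∈ X.1 := hX' ▸ bot_Z hk2
    rw [hX] at h0
    have := le_W hk hm h0
    omega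
  have cP : ∀ (a : ℕ) (X : StableSet s n k), X.1 = im k (gP s a) → c X = false := by
    intro a X hX
    refine decide_eq_false ?_
    rintro ⟨m', hm', hk2, hX'⟩
    have h0 : s - 2 ∈ X.1 := hX' ▸ bot_Z hk2
    have h1 : m' - 1 ∈ X.1 := hX' ▸ top_Z hk
    rw [hX] at h0 h1
    have := le_P hk h0
    have := le_P hk h1
    omega
  have cZ : ∀ (m : ℕ) (X : StableSet s n k), s * k ≤ m → 2 ≤ k → X.1 = im k (gZ s k m) →
      c X = true := by
    intro m X hm hk2 hX
    exact decide_eq_true ⟨m, hm, hk2, hX⟩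
  refine expansion (interlacingGraph s n k) c (s := s) (r := n - s * k)
    (fun a => vert hs1 (good_P hk hn a.2))
    (fun b => {X | X.1 = im k (gU s k (s * k + b.1)) ∨ X.1 = im k (gW s k (s * k + b.1)) ∨
      (2 ≤ k ∧ X.1 = im k (gZ s k (s * k + b.1)))})
    (fun b => vert hs1 (good_U hs2 hk (hm b) (hmn b)))
    (fun b => vert hs1 (good_W hs2 hk (hm b) (hmn b)))
    (fun a => cP a.1 _ rfl) (fun b => ⟨Or.inl rfl, cU _ _ (hm b) rfl⟩)
    (fun b => ⟨Or.inr (Or.inl rfl), cW _ _ (hm b) rfl⟩) ?_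
    (fun a a' haa => adj_PP hs1 hk _ _ haa a'.2)
    (fun a b ha => adj_PU hs1 hk (hm b) _ _ ha a.2) ?_
    (fun b b' hbb => adj_WU hs2 hs1 hk (hm b) (by have : b.1 < b'.1 := hbb; omega) _ _) ?_ ?_
  · -- connected
    intro b
    set B : Set (StableSet s n k) := {X | X.1 = im k (gU s k (s * k + b.1)) ∨
      X.1 = im k (gW s k (s * k + b.1)) ∨
      (2 ≤ k ∧ X.1 = im k (gZ s k (s * k + b.1)))} with hB
    let uv : B := ⟨vert hs1 (good_U hs2 hk (hm b) (hmn b)), Or.inl rfl⟩
    let wv : B := ⟨vert hs1 (good_W hs2 hk (hm b) (hmn b)), Or.inr (Or.inl rfl)⟩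
    have huw : ((bichromatic (interlacingGraph s n k) c).induce B).Reachable uv wv ∧
        ∀ X : B, X.1.1 = im k (gZ s k (s * k + b.1)) → 2 ≤ k →
          ((bichromatic (interlacingGraph s n k) c).induce B).Reachable uv X := by
      rcases Nat.lt_or_ge k 2 with hk2 | hk2
      · have : uv = wv := by
          refine Subtype.ext (Subtype.ext ?_)
          have hk1 : k = 1 := by omega
          have : ∀ i < k, gU s k (s * k + b.1) i = gW s k (s * k + b.1) i := by
            intro i hi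
            unfold gU gW
            split_ifs <;> omega
          exact Finset.image_congr fun i hi => this i (by simpa using hi)
        refine ⟨this ▸ SimpleGraph.Reachable.refl _, fun X _ h => ?_⟩
        omega
      · let zv : B := ⟨vert hs1 (good_Z hs2 hk2 (hm b) (hmn b)), Or.inr (Or.inr ⟨hk2, rfl⟩)⟩
        have h1 : ((bichromatic (interlacingGraph s n k) c).induce B).Adj zv uv := by
          refine (⟨adj_ZU hs hs1 hk (hm b) (good_Z hs2 hk2 (hm b) (hmn b))
            (good_U hs2 hk (hm b) (hmn b)), ?_⟩ :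
            (interlacingGraph s n k).Adj zv.1 uv.1 ∧ c zv.1 ≠ c uv.1)
          rw [cZ _ zv.1 (hm b) hk2 rfl, cU _ uv.1 (hm b) rfl]
          decide
        have h2 : ((bichromatic (interlacingGraph s n k) c).induce B).Adj zv wv := by
          refine (⟨adj_ZW hs hs1 hk (hm b) (good_Z hs2 hk2 (hm b) (hmn b))
            (good_W hs2 hk (hm b) (hmn b)), ?_⟩ :
            (interlacingGraph s n k).Adj zv.1 wv.1 ∧ c zv.1 ≠ c wv.1)
          rw [cZ _ zv.1 (hm b) hk2 rfl, cW _ wv.1 (hm b) rfl]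
          decide
        refine ⟨h1.symm.reachable.trans h2.reachable, fun X hX _ => ?_⟩
        have : X = zv := Subtype.ext (Subtype.ext hX)
        rw [this]
        exact h1.symm.reachable
    rw [SimpleGraph.connected_iff_exists_forall_reachable]
    refine ⟨uv, ?_⟩
    rintro ⟨X, hX⟩
    have hX' : X.1 = im k (gU s k (s * k + b.1)) ∨ X.1 = im k (gW s k (s * k + b.1)) ∨
      (2 ≤ k ∧ X.1 = im k (gZ s k (s * k + b.1))) := hX
    rcases hX' with h | h | ⟨hk2, h⟩
    · have : (⟨X, hX⟩ : B) = uv := Subtype.ext (Subtype.ext h)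
      rw [this]
    · have : (⟨X, hX⟩ : B) = wv := Subtype.ext (Subtype.ext h)
      rw [this]
      exact huw.1
    · exact huw.2 ⟨X, hX⟩ h hk2
  · -- `P 0` and `W`
    rintro ⟨a, ha⟩ b h0
    have h0 : a = 0 := h0
    subst h0
    exact adj_PW hs2 hs1 hk (hm b) _ _
  · -- disjointness of the levels
    intro b b' hbb
    have hbb : b.1 < b'.1 := hbb
    rw [Set.disjoint_left]
    intro X hX hX'
    have hX : X.1 = im k (gU s k (s * k + b.1)) ∨ X.1 = im k (gW s k (s * k + b.1)) ∨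
      (2 ≤ k ∧ X.1 = im k (gZ s k (s * k + b.1))) := hX
    have hX' : X.1 = im k (gU s k (s * k + b'.1)) ∨ X.1 = im k (gW s k (s * k + b'.1)) ∨
      (2 ≤ k ∧ X.1 = im k (gZ s k (s * k + b'.1))) := hX'
    have hle : ∀ x ∈ X.1, x ≤ s * k + b.1 := by
      intro x hx
      rcases hX with h | h | ⟨_, h⟩
      · rw [h] at hx
        exact (le_U hk (hm b) hx).2
      · rw [h] at hx
        exact (le_W hk (hm b) hx).2
      · rw [h] at hx
        have := le_Z hs2 hk (hm b) hx
        omega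
    rcases hX' with h' | h' | ⟨hk2, h'⟩
    · have := hle _ (h' ▸ top_U hk)
      omega
    · have := hle _ (h' ▸ top_W hk)
      omega
    · have h1 := hle _ (h' ▸ top_Z hk)
      have h2 : s - 2 ∈ X.1 := h' ▸ bot_Z hk2
      rcases hX with h | h | ⟨_, h⟩
      · rw [h] at h2
        have := le_U hk (hm b) h2
        omega
      · rw [h] at h2
        have := le_W hk (hm b) h2
        omega
      · have h3 : s * k + b'.1 - 1 ∈ X.1 := h' ▸ top_Z hk
        rw [h] at h3
        have := le_Z hs2 hk (hm b) h3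
        omega
  · -- the single vertices are not in the levels
    rintro ⟨a, ha⟩ b hX
    have hX : im k (gP s a) = im k (gU s k (s * k + b.1)) ∨
      im k (gP s a) = im k (gW s k (s * k + b.1)) ∨
      (2 ≤ k ∧ im k (gP s a) = im k (gZ s k (s * k + b.1))) := hX
    rcases hX with h | h | ⟨hk2, h⟩
    · have h0 : s * k + b.1 ∈ im k (gP s a) := h ▸ top_U hk
      have := le_P hk h0
      omega
    · have h0 : s * k + b.1 ∈ im k (gP s a) := h ▸ top_W hk
      have := le_P hk h0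
      omega
    · have h0 : s - 2 ∈ im k (gP s a) := h ▸ bot_Z hk2
      have h1 : s * k + b.1 - 1 ∈ im k (gP s a) := h ▸ top_Z hk
      have := le_P hk h0
      have := le_P hk h1
      omega

/-! ### The case `s = 2` -/

/-- `{1, 3, …, 2j-1} ∪ {2j+2, …, 2k-2} ∪ {m}`. -/
def fY (k m j i : ℕ) : ℕ := if i < j then 2 * i + 1 else if i + 1 < k then 2 * i + 2 else m

/-- `{0, 2, …, 2j-2} ∪ {2j+1, …, 2k-3} ∪ {m-1}`. -/
def fZ (k m j i : ℕ) : ℕ := if i < j then 2 * i else if i + 1 < k then 2 * i + 1 else m - 1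

lemma good_fY {n k m j : ℕ} (hj : j < k) (hm : 2 * k ≤ m) (hmn : m < n) :
    Good 2 n k (fY k m j) := by
  refine ⟨fun i hi => ?_, fun i hi => ?_, ?_⟩
  · unfold fY; split_ifs <;> omega
  · unfold fY; split_ifs <;> omega
  · unfold fY; split_ifs <;> omega

lemma good_fZ {n k m j : ℕ} (hj : 1 ≤ j) (hjk : j < k) (hm : 2 * k ≤ m) (hmn : m < n) :
    Good 2 n k (fZ k m j) := by
  refine ⟨fun i hi => ?_, fun i hi => ?_, ?_⟩
  · unfold fZ; split_ifs <;> omega
  · unfold fZ; split_ifs <;> omega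
  · unfold fZ; split_ifs <;> omega

lemma top_fY {k m j : ℕ} (hj : j < k) : m ∈ im k (fY k m j) := by
  refine mem_im.2 ⟨k - 1, by omega, ?_⟩
  unfold fY; split_ifs <;> omega

lemma le_fY {k m j x : ℕ} (hm : 2 * k ≤ m) (hx : x ∈ im k (fY k m j)) : 1 ≤ x ∧ x ≤ m := by
  obtain ⟨i, hi, rfl⟩ := mem_im.1 hx
  unfold fY; split_ifs <;> omega

lemma zero_fZ {k m j : ℕ} (hj : 1 ≤ j) (hjk : j < k) : 0 ∈ im k (fZ k m j) := by
  refine mem_im.2 ⟨0, by omega, ?_⟩
  unfold fZ; split_ifs <;> omega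

lemma top_fZ {k m j : ℕ} (hjk : j < k) : m - 1 ∈ im k (fZ k m j) := by
  refine mem_im.2 ⟨k - 1, by omega, ?_⟩
  unfold fZ; split_ifs <;> omega

lemma le_fZ {k m j x : ℕ} (hm : 2 * k ≤ m) (hx : x ∈ im k (fZ k m j)) : x ≤ m - 1 := by
  obtain ⟨i, hi, rfl⟩ := mem_im.1 hx
  unfold fZ; split_ifs <;> omega

lemma im_U_eq {k m : ℕ} : im k (gU 2 k m) = im k (fY k m 0) := by
  refine Finset.image_congr fun i _ => ?_
  unfold gU fY
  split_ifs <;> omega

lemma im_W_eq {k m : ℕ} : im k (gW 2 k m) = im k (fY k m (k - 1)) := by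
  refine Finset.image_congr fun i _ => ?_
  unfold gW fY
  split_ifs <;> omega

theorem interlacing_odd_two {n k : ℕ} (hk : 1 ≤ k) (hn : 2 * k ≤ n) :
    HasOddCliqueMinor (interlacingGraph 2 n k) (2 + (n - 2 * k)) := by
  classical
  have hs1 : 1 ≤ 2 := by omega
  set c : StableSet 2 n k → Bool :=
    fun X => decide (0 ∈ X.1 ∧ X.1 ≠ im k (gP 2 0)) with hc
  have hm : ∀ b : Fin (n - 2 * k), 2 * k ≤ 2 * k + b.1 := fun b => by omega
  have hmn : ∀ b : Fin (n - 2 * k), 2 * k + b.1 < n := fun b => by have := b.2; omega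
  have cY : ∀ (m j : ℕ) (X : StableSet 2 n k), 2 * k ≤ m → X.1 = im k (fY k m j) →
      c X = false := by
    intro m j X hm hX
    refine decide_eq_false ?_
    rintro ⟨h, -⟩
    rw [hX] at h
    have := le_fY hm h
    omega
  have cZ : ∀ (m j : ℕ) (X : StableSet 2 n k), 2 * k ≤ m → 1 ≤ j → j < k →
      X.1 = im k (fZ k m j) → c X = true := by
    intro m j X hm hj hjk hX
    refine decide_eq_true ⟨hX ▸ zero_fZ hj hjk, fun h => ?_⟩
    have h0 : m - 1 ∈ X.1 := hX ▸ top_fZ hjk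
    rw [h] at h0
    have := le_P hk h0
    omega
  have cP : ∀ (a : ℕ) (X : StableSet 2 n k), X.1 = im k (gP 2 a) → c X = false := by
    intro a X hX
    refine decide_eq_false ?_
    rintro ⟨h, h'⟩
    rcases Nat.eq_zero_or_pos a with ha | ha
    · subst ha
      exact h' hX
    · rw [hX] at h
      have := le_P hk h
      omega
  refine expansion (interlacingGraph 2 n k) c (s := 2) (r := n - 2 * k)
    (fun a => vert hs1 (good_P hk hn a.2))
    (fun b => {X | (∃ j, j < k ∧ X.1 = im k (fY k (2 * k + b.1) j)) ∨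
      (∃ j, 1 ≤ j ∧ j < k ∧ X.1 = im k (fZ k (2 * k + b.1) j))})
    (fun b => vert hs1 (good_U (le_refl 2) hk (hm b) (hmn b)))
    (fun b => vert hs1 (good_W (le_refl 2) hk (hm b) (hmn b)))
    (fun a => cP a.1 _ rfl)
    (fun b => ⟨Or.inl ⟨0, by omega, im_U_eq⟩, cY _ 0 _ (hm b) im_U_eq⟩)
    (fun b => ⟨Or.inl ⟨k - 1, by omega, im_W_eq⟩, cY _ (k - 1) _ (hm b) im_W_eq⟩) ?_
    (fun a a' haa => adj_PP hs1 hk _ _ haa a'.2)
    (fun a b ha => adj_PU hs1 hk (hm b) _ _ ha a.2) ?_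
    (fun b b' hbb => adj_WU (le_refl 2) hs1 hk (hm b)
      (by have : b.1 < b'.1 := hbb; omega) _ _) ?_ ?_
  · -- connected
    intro b
    set B : Set (StableSet 2 n k) := {X | (∃ j, j < k ∧ X.1 = im k (fY k (2 * k + b.1) j)) ∨
      (∃ j, 1 ≤ j ∧ j < k ∧ X.1 = im k (fZ k (2 * k + b.1) j))} with hB
    let yv : (j : ℕ) → j < k → B := fun j hj =>
      ⟨vert hs1 (good_fY hj (hm b) (hmn b)), Or.inl ⟨j, hj, rfl⟩⟩
    let zv : (j : ℕ) → 1 ≤ j → j < k → B := fun j h1 h2 =>
      ⟨vert hs1 (good_fZ h1 h2 (hm b) (hmn b)), Or.inr ⟨j, h1, h2, rfl⟩⟩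
    have hadj : ∀ (j l : ℕ) (hj : j < k) (h1 : 1 ≤ l) (h2 : l < k), (l = j ∨ l = j + 1) →
        ((bichromatic (interlacingGraph 2 n k) c).induce B).Adj (zv l h1 h2) (yv j hj) := by
      intro j l hj h1 h2 hjl
      refine (⟨adj_vert hs1 hk (good_fZ h1 h2 (hm b) (hmn b)) (good_fY hj (hm b) (hmn b))
          ?_ ?_, ?_⟩ :
        (interlacingGraph 2 n k).Adj (zv l h1 h2).1 (yv j hj).1 ∧
          c (zv l h1 h2).1 ≠ c (yv j hj).1)
      · intro i hi
        unfold fY fZ
        split_ifs <;> omega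
      · intro i hi
        unfold fY fZ
        split_ifs <;> omega
      · rw [cY _ j (yv j hj).1 (hm b) rfl, cZ _ l (zv l h1 h2).1 (hm b) h1 h2 rfl]
        decide
    have hY : ∀ (j : ℕ) (hj : j < k),
        ((bichromatic (interlacingGraph 2 n k) c).induce B).Reachable (yv 0 hk) (yv j hj) := by
      intro j
      induction j with
      | zero => intro _; exact SimpleGraph.Reachable.refl _
      | succ j ih =>
        intro hj
        have h1 := ih (by omega)
        have h2 := (hadj j (j + 1) (by omega) (by omega) hj (Or.inr rfl)).reachable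
        have h3 := (hadj (j + 1) (j + 1) hj (by omega) hj (Or.inl rfl)).reachable
        exact (h1.trans h2.symm).trans h3
    rw [SimpleGraph.connected_iff_exists_forall_reachable]
    refine ⟨yv 0 hk, ?_⟩
    rintro ⟨X, hX⟩
    have hX' : (∃ j, j < k ∧ X.1 = im k (fY k (2 * k + b.1) j)) ∨
      (∃ j, 1 ≤ j ∧ j < k ∧ X.1 = im k (fZ k (2 * k + b.1) j)) := hX
    rcases hX' with ⟨j, hj, hXj⟩ | ⟨j, hj1, hj, hXj⟩
    · have : (⟨X, hX⟩ : B) = yv j hj := Subtype.ext (Subtype.ext hXj)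
      rw [this]
      exact hY j hj
    · have : (⟨X, hX⟩ : B) = zv j hj1 hj := Subtype.ext (Subtype.ext hXj)
      rw [this]
      exact (hY j hj).trans (hadj j j hj hj1 hj (Or.inl rfl)).reachable.symm
  · -- `P 0` and `W`
    rintro ⟨a, ha⟩ b h0
    have h0 : a = 0 := h0
    subst h0
    exact adj_PW (le_refl 2) hs1 hk (hm b) _ _
  · -- disjointness of the levels
    intro b b' hbb
    have hbb : b.1 < b'.1 := hbb
    rw [Set.disjoint_left]
    intro X hX hX'
    have hX : (∃ j, j < k ∧ X.1 = im k (fY k (2 * k + b.1) j)) ∨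
      (∃ j, 1 ≤ j ∧ j < k ∧ X.1 = im k (fZ k (2 * k + b.1) j)) := hX
    have hX' : (∃ j, j < k ∧ X.1 = im k (fY k (2 * k + b'.1) j)) ∨
      (∃ j, 1 ≤ j ∧ j < k ∧ X.1 = im k (fZ k (2 * k + b'.1) j)) := hX'
    rcases hX with ⟨l, hl, h⟩ | ⟨l, hl1, hl, h⟩ <;>
    rcases hX' with ⟨j, hj, h'⟩ | ⟨j, hj1, hj, h'⟩
    · have h0 : 2 * k + b'.1 ∈ X.1 := h' ▸ top_fY hj
      rw [h] at h0
      have := le_fY (hm b) h0
      omega
    · have h0 : 0 ∈ X.1 := h' ▸ zero_fZ hj1 hj
      rw [h] at h0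
      have := le_fY (hm b) h0
      omega
    · have h0 : 2 * k + b'.1 ∈ X.1 := h' ▸ top_fY hj
      rw [h] at h0
      have := le_fZ (hm b) h0
      omega
    · have h0 : 2 * k + b'.1 - 1 ∈ X.1 := h' ▸ top_fZ hj
      rw [h] at h0
      have := le_fZ (hm b) h0
      omega
  · -- the single vertices are not in the levels
    rintro ⟨a, ha⟩ b hX
    have hX : (∃ j, j < k ∧ im k (gP 2 a) = im k (fY k (2 * k + b.1) j)) ∨
      (∃ j, 1 ≤ j ∧ j < k ∧ im k (gP 2 a) = im k (fZ k (2 * k + b.1) j)) := hX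
    rcases hX with ⟨j, hj, h⟩ | ⟨j, hj1, hj, h⟩
    · have h0 : 2 * k + b.1 ∈ im k (gP 2 a) := h ▸ top_fY hj
      have := le_P hk h0
      omega
    · have h0 : 0 ∈ im k (gP 2 a) := h ▸ zero_fZ hj1 hj
      have h1 : 2 * k + b.1 - 1 ∈ im k (gP 2 a) := h ▸ top_fZ hj
      have := le_P hk h0
      have := le_P hk h1
      omega

/-! ### Both cases, and the colourings -/

theorem interlacing_odd {s n k : ℕ} (hs : 2 ≤ s) (hk : 1 ≤ k) (hn : s * k ≤ n) :
    HasOddCliqueMinor (interlacingGraph s n k) (n - s * (k - 1)) := by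
  have he : n - s * (k - 1) = s + (n - s * k) := by
    obtain ⟨K, rfl⟩ : ∃ K, k = K + 1 := ⟨k - 1, by omega⟩
    rw [Nat.mul_succ] at hn ⊢
    rw [Nat.add_sub_cancel]
    omega
  rw [he]
  rcases hs.lt_or_eq with h | h
  · exact interlacing_odd_three h hk hn
  · subst h
    exact interlacing_odd_two hk hn

/-- The standard colouring of the Kneser graph. -/
theorem kneser_colorable {n k : ℕ} (hk : 1 ≤ k) (hn : 2 * k ≤ n) :
    (kneserGraph n k).Colorable (n - 2 * (k - 1)) := by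
  have hlt : ∀ X : {X : Finset ℕ // X ⊆ range n ∧ X.card = k},
      X.1.sup id - (2 * k - 2) < n - 2 * (k - 1) := by
    intro X
    have : X.1.sup id < n := by
      rw [Finset.sup_lt_iff (by simp only [bot_eq_zero']; omega)]
      intro x hx
      exact mem_range.1 (X.2.1 hx)
    omega
  refine ⟨SimpleGraph.Coloring.mk (fun X => ⟨X.1.sup id - (2 * k - 2), hlt X⟩) ?_⟩
  intro X Y hXY heq
  have hd : Disjoint X.1 Y.1 := hXY.2
  have heq' : X.1.sup id - (2 * k - 2) = Y.1.sup id - (2 * k - 2) := congrArg Fin.val heq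
  have hneX : X.1.Nonempty := by
    rw [← Finset.card_pos, X.2.2]; exact hk
  have hneY : Y.1.Nonempty := by
    rw [← Finset.card_pos, Y.2.2]; exact hk
  obtain ⟨x, hx, hxs⟩ := Finset.exists_mem_eq_sup X.1 hneX id
  obtain ⟨y, hy, hys⟩ := Finset.exists_mem_eq_sup Y.1 hneY id
  simp only [id] at hxs hys
  rcases Nat.lt_or_ge (2 * k - 2) (X.1.sup id) with h | h
  · have : x = y := by omega
    subst this
    exact (Finset.disjoint_left.1 hd hx) hy
  · have h' : Y.1.sup id ≤ 2 * k - 2 := by omega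
    have hsub : X.1 ∪ Y.1 ⊆ range (2 * k - 1) := by
      intro z hz
      rw [mem_range]
      rcases mem_union.1 hz with hz | hz
      · have : z ≤ X.1.sup id := Finset.le_sup (f := id) hz
        omega
      · have : z ≤ Y.1.sup id := Finset.le_sup (f := id) hz
        omega
    have hcard := Finset.card_le_card hsub
    rw [Finset.card_union_of_disjoint hd, X.2.2, Y.2.2, card_range] at hcard
    omega

/-- An `s`-stable set of the path with `k` elements, the largest of which is `M`, satisfies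
`s (k-1) ≤ M`. -/
lemma stable_card {s : ℕ} : ∀ (k M : ℕ) (X : Finset ℕ), X.card = k + 1 → (∀ x ∈ X, x ≤ M) →
    (∀ x ∈ X, ∀ y ∈ X, x < y → x + s ≤ y) → s * k ≤ M := by
  intro k
  induction k with
  | zero => intro M X _ _ _; simp
  | succ k ih =>
    intro M X hc hM hX
    have hne : X.Nonempty := by
      rw [← Finset.card_pos]; omega
    have hmax := X.max'_mem hne
    have hc' : (X.erase (X.max' hne)).card = k + 1 := by
      rw [card_erase_of_mem hmax]; omega
    have hne' : (X.erase (X.max' hne)).Nonempty := by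
      rw [← Finset.card_pos]; omega
    have hgap : ∀ x ∈ X.erase (X.max' hne), x + s ≤ X.max' hne := by
      intro x hx
      have hx1 := (mem_erase.1 hx).2
      have hx2 := (mem_erase.1 hx).1
      exact hX x hx1 _ hmax (lt_of_le_of_ne (X.le_max' x hx1) hx2)
    obtain ⟨x0, hx0⟩ := hne'
    have h0 := hgap x0 hx0
    have := ih (X.max' hne - s) (X.erase (X.max' hne)) hc'
      (fun x hx => by have := hgap x hx; omega)
      (fun x hx y hy => hX x (mem_erase.1 hx).2 y (mem_erase.1 hy).2)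
    have h1 := hM _ hmax
    rw [Nat.mul_succ]
    omega

/-- The trivial colouring of the `s`-stable sets of the path, by the largest element. -/
theorem pathStable_colorable {s n k : ℕ} (hk : 1 ≤ k) (hn : s * k ≤ n) :
    (pathStableKneserGraph s n k).Colorable (n - s * (k - 1)) := by
  obtain ⟨K, rfl⟩ : ∃ K, k = K + 1 := ⟨k - 1, by omega⟩
  rw [Nat.add_sub_cancel]
  have hne : ∀ X : PathStableSet s n (K + 1), X.1.Nonempty := by
    intro X
    rw [← Finset.card_pos, X.2.2.1]; omega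
  have hlt : ∀ X : PathStableSet s n (K + 1), X.1.max' (hne X) - s * K < n - s * K := by
    intro X
    have h1 := stable_card K (X.1.max' (hne X)) X.1 X.2.2.1 (fun x hx => X.1.le_max' x hx)
      X.2.2.2
    have h2 := mem_range.1 (X.2.1 (X.1.max'_mem (hne X)))
    omega
  refine ⟨SimpleGraph.Coloring.mk (fun X => ⟨X.1.max' (hne X) - s * K, hlt X⟩) ?_⟩
  intro X Y hXY heq
  have hd : Disjoint X.1 Y.1 := hXY.2
  have heq' : X.1.max' (hne X) - s * K = Y.1.max' (hne Y) - s * K := congrArg Fin.val heq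
  have h1 := stable_card K (X.1.max' (hne X)) X.1 X.2.2.1 (fun x hx => X.1.le_max' x hx)
    X.2.2.2
  have h2 := stable_card K (Y.1.max' (hne Y)) Y.1 Y.2.2.1 (fun x hx => Y.1.le_max' x hx)
    Y.2.2.2
  have h3 : X.1.max' (hne X) = Y.1.max' (hne Y) := by omega
  exact (Finset.disjoint_left.1 hd (X.1.max'_mem (hne X))) (h3 ▸ Y.1.max'_mem (hne Y))

lemma oddHadwiger_of {V : Type*} (G : SimpleGraph V) {t : ℕ} (h : HasOddCliqueMinor G t)
    (hc : G.Colorable t) : OddHadwiger G := by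
  intro j hj
  refine h.mono ?_
  by_contra hcon
  exact hj (hc.mono (by omega))

end Pool.Agent.TH702.SG
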