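import Pool.Agent.TH702.SG.Gen2

/-!
# Strong immersions and schemes in stable Kneser graphs
-/

namespace Pool.Agent.TH702.SG

open Finset

/-- A linked system of order `r` in `G`: `r` distinct vertices `f i` and, for every `i < j`, a path
`p i j` of `G` from `f i` to `f j`, such that

* paths for different pairs have no edge in common,
* `p i j` contains no vertex `f l` except `f i` and `f j`,
* the paths of two pairs `i < j` and `k < l` with `i, j, k, l` distinct have no vertex in common.

The first two conditions say that the paths form a strong immersion of `K_r`. -/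
def HasLinkedSystem {V : Type*} (G : SimpleGraph V) (r : ℕ) : Prop :=
  ∃ f : Fin r ↪ V, ∃ p : ∀ i j : Fin r, G.Walk (f i) (f j),
    (∀ i j : Fin r, i < j → (p i j).IsPath) ∧
    (∀ i j k l : Fin r, i < j → k < l → (i ≠ k ∨ j ≠ l) →
      ∀ e ∈ (p i j).edges, e ∉ (p k l).edges) ∧
    (∀ i j l : Fin r, i < j → f l ∈ (p i j).support → l = i ∨ l = j) ∧
    (∀ i j k l : Fin r, i < j → k < l → i ≠ k → i ≠ l → j ≠ k → j ≠ l →
      ∀ v ∈ (p i j).support, v ∉ (p k l).support)

lemma HasLinkedSystem.mono {V : Type*} {G : SimpleGraph V} {r t : ℕ}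
    (h : HasLinkedSystem G t) (hrt : r ≤ t) : HasLinkedSystem G r := by
  obtain ⟨f, p, h1, h2, h3, h4⟩ := h
  have hinj : ∀ i j : Fin r, Fin.castLE hrt i = Fin.castLE hrt j → i = j :=
    fun i j h => Fin.castLE_injective hrt h
  have hlt : ∀ i j : Fin r, i < j → Fin.castLE hrt i < Fin.castLE hrt j := fun i j h => h
  refine ⟨(Fin.castLEEmb hrt).trans f, fun i j => p (Fin.castLE hrt i) (Fin.castLE hrt j),
    fun i j hij => h1 _ _ (hlt i j hij), ?_, ?_, ?_⟩
  · intro i j k l hij hkl hne
    refine h2 _ _ _ _ (hlt i j hij) (hlt k l hkl) ?_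
    rcases hne with h | h
    · exact Or.inl fun h' => h (hinj _ _ h')
    · exact Or.inr fun h' => h (hinj _ _ h')
  · intro i j l hij hl
    rcases h3 _ _ (Fin.castLE hrt l) (hlt i j hij) hl with h | h
    · exact Or.inl (hinj _ _ h)
    · exact Or.inr (hinj _ _ h)
  · intro i j k l hij hkl a b c d
    exact h4 _ _ _ _ (hlt i j hij) (hlt k l hkl) (fun h => a (hinj _ _ h))
      (fun h => b (hinj _ _ h)) (fun h => c (hinj _ _ h)) (fun h => d (hinj _ _ h))

lemma HasLinkedSystem.of_isContained {V W : Type*} {H : SimpleGraph V} {G : SimpleGraph W}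
    {t : ℕ} (h : HasLinkedSystem H t) (hHG : H.IsContained G) : HasLinkedSystem G t := by
  obtain ⟨f, p, h1, h2, h3, h4⟩ := h
  obtain ⟨g⟩ := hHG
  have hg : Function.Injective g.toHom := g.injective
  refine ⟨f.trans ⟨g.toHom, hg⟩, fun i j => (p i j).map g.toHom, ?_, ?_, ?_, ?_⟩
  · intro i j hij
    exact SimpleGraph.Walk.map_isPath_of_injective hg (h1 i j hij)
  · intro i j k l hij hkl hne e he he'
    have he : e ∈ ((p i j).map g.toHom).edges := he
    have he' : e ∈ ((p k l).map g.toHom).edges := he'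
    rw [SimpleGraph.Walk.edges_map, List.mem_map] at he he'
    obtain ⟨a, ha, rfl⟩ := he
    obtain ⟨b, hb, hab⟩ := he'
    have : b = a := Sym2.map.injective hg hab
    subst this
    exact h2 i j k l hij hkl hne b ha hb
  · intro i j l hij hl
    have hl : g.toHom (f l) ∈ ((p i j).map g.toHom).support := hl
    rw [SimpleGraph.Walk.support_map, List.mem_map] at hl
    obtain ⟨a, ha, hal⟩ := hl
    have : a = f l := hg hal
    subst this
    exact h3 i j l hij ha
  · intro i j k l hij hkl a b c d v hv hv'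
    have hv : v ∈ ((p i j).map g.toHom).support := hv
    have hv' : v ∈ ((p k l).map g.toHom).support := hv'
    rw [SimpleGraph.Walk.support_map, List.mem_map] at hv hv'
    obtain ⟨x, hx, rfl⟩ := hv
    obtain ⟨y, hy, hxy⟩ := hv'
    have : y = x := hg hxy
    subst this
    exact h4 i j k l hij hkl a b c d y hx hy

/-- The edges between the colour classes `a` and `b`. -/
def classGraph {V : Type*} (G : SimpleGraph V) (c : V → ℕ) (a b : ℕ) : SimpleGraph V where
  Adj u w := G.Adj u w ∧ ((c u = a ∧ c w = b) ∨ (c u = b ∧ c w = a))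
  symm := ⟨fun _ _ h => ⟨h.1.symm, h.2.symm.imp And.symm And.symm⟩⟩
  loopless := ⟨fun _ h => h.1.ne rfl⟩

lemma support_class {V : Type*} {G : SimpleGraph V} {c : V → ℕ} {a b : ℕ} {u w : V}
    (p : (classGraph G c a b).Walk u w) (hu : c u = a ∨ c u = b) :
    ∀ x ∈ p.support, c x = a ∨ c x = b := by
  induction p with
  | nil =>
    intro x hx
    rw [SimpleGraph.Walk.support_nil, List.mem_singleton] at hx
    subst hx
    exact hu
  | cons h p ih =>
    intro x hx
    rw [SimpleGraph.Walk.support_cons, List.mem_cons] at hx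
    rcases hx with rfl | hx
    · exact hu
    · refine ih ?_ x hx
      rcases h.2 with h | h
      · exact Or.inr h.2
      · exact Or.inl h.2

/-- Vertices of different colours that are joined by two-coloured paths form a linked system. -/
lemma linked_of_colours {V : Type*} (G : SimpleGraph V) (c : V → ℕ) {N : ℕ} (v : Fin N → V)
    (L : Fin N → ℕ) (hL : Function.Injective L) (hv : ∀ i, c (v i) = L i)
    (hr : ∀ i j, i < j → (classGraph G c (L i) (L j)).Reachable (v i) (v j)) :
    HasLinkedSystem G N := by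
  classical
  have hle : ∀ a b, classGraph G c a b ≤ G := fun a b _ _ h => h.1
  have hreach : ∀ i j, G.Reachable (v i) (v j) := by
    intro i j
    rcases lt_trichotomy i j with h | h | h
    · exact (hr i j h).mono (hle _ _)
    · rw [h]
    · exact ((hr j i h).mono (hle _ _)).symm
  have key : ∀ i j : Fin N, ∃ w : G.Walk (v i) (v j), i < j →
      (w.IsPath ∧ (∀ e ∈ w.edges, e ∈ (classGraph G c (L i) (L j)).edgeSet) ∧
        ∀ x ∈ w.support, c x = L i ∨ c x = L j) := by
    intro i j
    by_cases hij : i < j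
    · obtain ⟨q, hq⟩ := (hr i j hij).exists_isPath
      refine ⟨q.mapLe (hle _ _), fun _ => ⟨hq.mapLe _, ?_, ?_⟩⟩
      · intro e he
        rw [SimpleGraph.Walk.edges_mapLe_eq_edges] at he
        exact q.edges_subset_edgeSet he
      · intro x hx
        rw [SimpleGraph.Walk.support_mapLe_eq_support] at hx
        exact support_class q (Or.inl (hv i)) x hx
    · exact ⟨(hreach i j).some, fun h => absurd h hij⟩
  choose p hp using key
  refine ⟨⟨v, fun i j hij => hL (by rw [← hv i, ← hv j, hij])⟩, p, ?_, ?_, ?_, ?_⟩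
  · intro i j hij
    exact (hp i j hij).1
  · intro i j k l hij hkl hne e he he'
    have h1 := (hp i j hij).2.1 e he
    have h2 := (hp k l hkl).2.1 e he'
    have hLne : L i ≠ L j := fun h => hij.ne (hL h)
    have hmain : (L i = L k ∧ L j = L l) ∨ (L i = L l ∧ L j = L k) := by
      induction e using Sym2.ind with
      | _ x y =>
        have h1' : (c x = L i ∧ c y = L j) ∨ (c x = L j ∧ c y = L i) := h1.2
        have h2' : (c x = L k ∧ c y = L l) ∨ (c x = L l ∧ c y = L k) := h2.2
        rcases h1' with ⟨a, b⟩ | ⟨a, b⟩ <;> rcases h2' with ⟨a', b'⟩ | ⟨a', b'⟩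
        · exact Or.inl ⟨a.symm.trans a', b.symm.trans b'⟩
        · exact Or.inr ⟨a.symm.trans a', b.symm.trans b'⟩
        · exact Or.inr ⟨b.symm.trans b', a.symm.trans a'⟩
        · exact Or.inl ⟨b.symm.trans b', a.symm.trans a'⟩
    rcases hmain with ⟨a, b⟩ | ⟨a, b⟩
    · rcases hne with h | h
      · exact h (hL a)
      · exact h (hL b)
    · have := hL a
      have := hL b
      subst_vars
      exact absurd hij (not_lt.2 hkl.le)
  · intro i j l hij hl
    rcases (hp i j hij).2.2 _ hl with h | h
    · exact Or.inl (hL ((hv l).symm.trans h))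
    · exact Or.inr (hL ((hv l).symm.trans h))
  · intro i j k l hij hkl a b c' d x hx hx'
    rcases (hp i j hij).2.2 _ hx with h | h <;> rcases (hp k l hkl).2.2 _ hx' with h' | h'
    · exact a (hL (h.symm.trans h'))
    · exact b (hL (h.symm.trans h'))
    · exact c' (hL (h.symm.trans h'))
    · exact d (hL (h.symm.trans h'))

/-! ### The system in the interlacing graph -/

/-- The largest element. -/
def top {s n k : ℕ} (X : StableSet s n k) : ℕ := X.1.sup id

lemma top_vert {s n k : ℕ} (hs : 1 ≤ s) (hk : 1 ≤ k) {φ : ℕ → ℕ} (h : Good s n k φ) :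
    top (vert hs h) = φ (k - 1) := by
  refine le_antisymm (Finset.sup_le ?_) ?_
  · intro x hx
    obtain ⟨i, hi, rfl⟩ := mem_im.1 hx
    exact h.mono (by omega) (by omega)
  · exact Finset.le_sup (f := id) (mem_im.2 ⟨k - 1, by omega, rfl⟩ : φ (k - 1) ∈ im k φ)

lemma good_W' {s n k m : ℕ} (hs : 2 ≤ s) (hk : 1 ≤ k) (hm : s * k ≤ m + 1) (hmn : m < n) :
    Good s n k (gW s k m) := by
  obtain ⟨K, rfl⟩ : ∃ K, k = K + 1 := ⟨k - 1, by omega⟩
  rw [Nat.mul_succ] at hm
  refine ⟨fun i hi => ?_, fun i hi => ?_, ?_⟩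
  · have := Nat.mul_le_mul_left s (show i ≤ K by omega)
    unfold gW
    split_ifs <;> omega
  · have := Nat.mul_le_mul_left s (show i + 1 ≤ K by omega)
    rw [Nat.mul_succ] at this
    unfold gW
    rw [Nat.mul_succ]
    split_ifs <;> omega
  · unfold gW
    rw [Nat.add_sub_cancel, Nat.mul_zero]
    split_ifs <;> omega

lemma good_Z' {s n k m : ℕ} (hs : 2 ≤ s) (hk : 1 ≤ k) (hm : s * k ≤ m) (hmn : m < n) :
    Good s n k (gZ s k m) := by
  obtain ⟨K, rfl⟩ : ∃ K, k = K + 1 := ⟨k - 1, by omega⟩
  rw [Nat.mul_succ] at hm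
  refine ⟨fun i hi => ?_, fun i hi => ?_, ?_⟩
  · have := Nat.mul_le_mul_left s (show i ≤ K by omega)
    unfold gZ
    split_ifs <;> omega
  · have := Nat.mul_le_mul_left s (show i + 1 ≤ K by omega)
    rw [Nat.mul_succ] at this
    unfold gZ
    rw [Nat.mul_succ]
    split_ifs <;> omega
  · unfold gZ
    rw [Nat.add_sub_cancel, Nat.mul_zero]
    split_ifs <;> omega

/-- The function of the basis vertex with largest element `m`. -/
def gB (s k m : ℕ) : ℕ → ℕ := if m + 1 < s * k then gP s (m - s * (k - 1)) else gW s k m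

lemma good_B {s n k m : ℕ} (hs : 2 ≤ s) (hk : 1 ≤ k) (hn : s * k ≤ n) (hm : s * (k - 1) ≤ m)
    (hmn : m < n) : Good s n k (gB s k m) := by
  unfold gB
  split_ifs with h
  · refine good_P hk hn ?_
    obtain ⟨K, rfl⟩ : ∃ K, k = K + 1 := ⟨k - 1, by omega⟩
    rw [Nat.mul_succ] at h
    rw [Nat.add_sub_cancel] at hm ⊢
    omega
  · exact good_W' hs hk (by omega) hmn

lemma gB_top {s k m : ℕ} (hk : 1 ≤ k) (hm : s * (k - 1) ≤ m) : gB s k m (k - 1) = m := by
  unfold gB
  split_ifs with h
  · unfold gP
    omega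
  · unfold gW
    split_ifs <;> omega

/-- Adjacency to a vertex `W` or `P` from a vertex `P`. -/
lemma adj_PB {s n k m m' : ℕ} (hs : 2 ≤ s) (hs' : 1 ≤ s) (hk : 1 ≤ k)
    (hm : s * (k - 1) ≤ m) (hms : m + 1 < s * k) (hmm : m < m')
    (h : Good s n k (gB s k m)) (h' : Good s n k (gB s k m')) :
    (interlacingGraph s n k).Adj (vert hs' h) (vert hs' h') := by
  obtain ⟨K, rfl⟩ : ∃ K, k = K + 1 := ⟨k - 1, by omega⟩
  rw [Nat.add_sub_cancel] at hm
  refine adj_vert hs' hk h h' (fun i hi => ?_) (fun i hi => ?_)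
  · have e1 := Nat.mul_le_mul_left s (show i ≤ K by omega)
    unfold gB
    rw [if_pos hms]
    rw [Nat.mul_succ] at hms
    split_ifs with hb
    · unfold gP
      rw [Nat.mul_succ] at hb
      rw [Nat.add_sub_cancel]
      omega
    · unfold gP gW
      rw [Nat.mul_succ] at hb
      rw [Nat.add_sub_cancel]
      split_ifs with hc
      · omega
      · have : i = K := by omega
        subst this
        omega
  · have e1 := Nat.mul_le_mul_left s (show i + 1 ≤ K by omega)
    rw [Nat.mul_succ] at e1
    unfold gB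
    rw [if_pos hms]
    rw [Nat.mul_succ] at hms
    split_ifs with hb
    · unfold gP
      rw [Nat.mul_succ] at hb
      rw [Nat.add_sub_cancel, Nat.mul_succ]
      omega
    · unfold gP gW
      rw [Nat.mul_succ] at hb
      rw [Nat.add_sub_cancel, Nat.mul_succ]
      split_ifs
      omega

lemma adj_WU' {s n k m m' : ℕ} (hs : 2 ≤ s) (hs' : 1 ≤ s) (hk : 1 ≤ k) (hm : s * k ≤ m + 1)
    (hmm : m < m') (h : Good s n k (gW s k m)) (h' : Good s n k (gU s k m')) :
    (interlacingGraph s n k).Adj (vert hs' h) (vert hs' h') := by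
  refine adj_vert hs' hk h h' (fun i hi => ?_) (fun i hi => ?_)
  · have := Nat.mul_le_mul_left s (show i + 1 ≤ k by omega)
    rw [Nat.mul_succ] at this
    unfold gW gU
    split_ifs <;> omega
  · have := Nat.mul_le_mul_left s (show i + 2 ≤ k by omega)
    rw [show i + 2 = i + 1 + 1 from rfl, Nat.mul_succ, Nat.mul_succ] at this
    unfold gW gU
    rw [Nat.mul_succ]
    split_ifs <;> omega

lemma adj_ZU' {s n k m m' : ℕ} (hs : 3 ≤ s) (hs' : 1 ≤ s) (hk : 1 ≤ k) (hm : s * k ≤ m + 1)
    (hmm : m < m') (h : Good s n k (gZ s k (m + 1))) (h' : Good s n k (gU s k m')) :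
    (interlacingGraph s n k).Adj (vert hs' h) (vert hs' h') := by
  refine adj_vert hs' hk h h' (fun i hi => ?_) (fun i hi => ?_)
  · have := Nat.mul_le_mul_left s (show i + 1 ≤ k by omega)
    rw [Nat.mul_succ] at this
    unfold gZ gU
    split_ifs <;> omega
  · have := Nat.mul_le_mul_left s (show i + 2 ≤ k by omega)
    rw [show i + 2 = i + 1 + 1 from rfl, Nat.mul_succ, Nat.mul_succ] at this
    unfold gZ gU
    rw [Nat.mul_succ]
    split_ifs <;> omega

lemma adj_ZW' {s n k m m' : ℕ} (hs : 3 ≤ s) (hs' : 1 ≤ s) (hk : 1 ≤ k) (hm : s * k ≤ m + 1)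
    (hmm : m < m') (h : Good s n k (gZ s k (m + 1))) (h' : Good s n k (gW s k m')) :
    (interlacingGraph s n k).Adj (vert hs' h) (vert hs' h') := by
  refine adj_vert hs' hk h h' (fun i hi => ?_) (fun i hi => ?_)
  · have := Nat.mul_le_mul_left s (show i + 1 ≤ k by omega)
    rw [Nat.mul_succ] at this
    unfold gZ gW
    split_ifs <;> omega
  · have := Nat.mul_le_mul_left s (show i + 2 ≤ k by omega)
    rw [show i + 2 = i + 1 + 1 from rfl, Nat.mul_succ, Nat.mul_succ] at this
    unfold gZ gW
    rw [Nat.mul_succ]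
    split_ifs <;> omega

/-- The two-coloured path from `W_m` to `W_{m'}`. -/
lemma reach_WW {s n k m m' : ℕ} (hs : 2 ≤ s) (hs' : 1 ≤ s) (hk : 1 ≤ k) (hm : s * k ≤ m + 1)
    (hmm : m < m') (hmn : m' < n) (h : Good s n k (gW s k m)) (h' : Good s n k (gW s k m')) :
    (classGraph (interlacingGraph s n k) top m m').Reachable (vert hs' h) (vert hs' h') := by
  have gU' : Good s n k (gU s k m') := good_U hs hk (by omega) hmn
  have tW : top (vert hs' h) = m := by
    rw [top_vert hs' hk]
    unfold gW
    split_ifs <;> omega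
  have tW' : top (vert hs' h') = m' := by
    rw [top_vert hs' hk]
    unfold gW
    split_ifs <;> omega
  have tU' : top (vert hs' gU') = m' := by
    rw [top_vert hs' hk]
    unfold gU
    split_ifs <;> omega
  have a1 : (classGraph (interlacingGraph s n k) top m m').Adj (vert hs' h) (vert hs' gU') :=
    ⟨adj_WU' hs hs' hk hm hmm h gU', Or.inl ⟨tW, tU'⟩⟩
  rcases hs.lt_or_eq with h3 | h3
  · have gZ1 : Good s n k (gZ s k (m + 1)) := good_Z' hs hk hm (by omega)
    have tZ : top (vert hs' gZ1) = m := by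
      rw [top_vert hs' hk]
      unfold gZ
      split_ifs <;> omega
    have a2 : (classGraph (interlacingGraph s n k) top m m').Adj (vert hs' gZ1)
        (vert hs' gU') := ⟨adj_ZU' h3 hs' hk hm hmm gZ1 gU', Or.inl ⟨tZ, tU'⟩⟩
    have a3 : (classGraph (interlacingGraph s n k) top m m').Adj (vert hs' gZ1)
        (vert hs' h') := ⟨adj_ZW' h3 hs' hk hm hmm gZ1 h', Or.inl ⟨tZ, tW'⟩⟩
    exact (a1.reachable.trans a2.symm.reachable).trans a3.reachable
  · subst h3
    have hm2 : 2 * k ≤ m' := by omega
    have eU : vert hs' gU' = vert hs' (good_fY (j := 0) (by omega) hm2 hmn) :=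
      Subtype.ext im_U_eq
    have eW : vert hs' h' = vert hs' (good_fY (j := k - 1) (by omega) hm2 hmn) :=
      Subtype.ext im_W_eq
    have hadj : ∀ (j l : ℕ) (hj : j < k) (h1 : 1 ≤ l) (h2 : l < k), (l = j ∨ l = j + 1) →
        (classGraph (interlacingGraph 2 n k) top m m').Adj
          (vert hs' (good_fZ (n := n) (m := m + 1) h1 h2 hm (by omega)))
          (vert hs' (good_fY (n := n) (j := j) hj hm2 hmn)) := by
      intro j l hj h1 h2 hjl
      refine ⟨adj_vert hs' hk _ _ (fun i hi => ?_) (fun i hi => ?_), Or.inl ⟨?_, ?_⟩⟩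
      · unfold fY fZ
        split_ifs <;> omega
      · unfold fY fZ
        split_ifs <;> omega
      · rw [top_vert hs' hk]
        unfold fZ
        split_ifs <;> omega
      · rw [top_vert hs' hk]
        unfold fY
        split_ifs <;> omega
    have hY : ∀ (j : ℕ) (hj : j < k),
        (classGraph (interlacingGraph 2 n k) top m m').Reachable
          (vert hs' (good_fY (n := n) (j := 0) (by omega) hm2 hmn))
          (vert hs' (good_fY (n := n) (j := j) hj hm2 hmn)) := by
      intro j
      induction j with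
      | zero => intro _; exact SimpleGraph.Reachable.refl _
      | succ j ih =>
        intro hj
        have h1 := ih (by omega)
        have h2 := (hadj j (j + 1) (by omega) (by omega) hj (Or.inr rfl)).reachable
        have h3 := (hadj (j + 1) (j + 1) hj (by omega) hj (Or.inl rfl)).reachable
        exact (h1.trans h2.symm).trans h3
    rw [eU] at a1
    rw [eW]
    exact a1.reachable.trans (hY (k - 1) (by omega))

theorem interlacing_linked {s n k : ℕ} (hs : 2 ≤ s) (hk : 1 ≤ k) (hn : s * k ≤ n) :
    HasLinkedSystem (interlacingGraph s n k) (n - s * (k - 1)) := by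
  have hs' : 1 ≤ s := by omega
  have hlo : ∀ i : Fin (n - s * (k - 1)), s * (k - 1) ≤ s * (k - 1) + i.1 := fun i => by omega
  have hhi : ∀ i : Fin (n - s * (k - 1)), s * (k - 1) + i.1 < n := fun i => by
    have := i.2; omega
  refine linked_of_colours (interlacingGraph s n k) top
    (fun i => vert hs' (good_B hs hk hn (hlo i) (hhi i))) (fun i => s * (k - 1) + i.1)
    (fun i j h => Fin.ext (by simpa using h))
    (fun i => (top_vert hs' hk _).trans (gB_top hk (hlo i))) ?_
  intro i j hij
  have hij' : i.1 < j.1 := hij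
  rcases Nat.lt_or_ge (s * (k - 1) + i.1 + 1) (s * k) with h | h
  · refine SimpleGraph.Adj.reachable ⟨adj_PB hs hs' hk (hlo i) h (by omega) _ _, Or.inl ⟨?_, ?_⟩⟩
    · exact (top_vert hs' hk _).trans (gB_top hk (hlo i))
    · exact (top_vert hs' hk _).trans (gB_top hk (hlo j))
  · have hW : Good s n k (gW s k (s * (k - 1) + i.1)) := good_W' hs hk h (hhi i)
    have hW' : Good s n k (gW s k (s * (k - 1) + j.1)) := good_W' hs hk (by omega) (hhi j)
    have e1 : vert hs' (good_B hs hk hn (hlo i) (hhi i)) = vert hs' hW := by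
      refine Subtype.ext ?_
      have : gB s k (s * (k - 1) + i.1) = gW s k (s * (k - 1) + i.1) := by
        unfold gB
        rw [if_neg (by omega)]
      exact congrArg (im k) this
    have e2 : vert hs' (good_B hs hk hn (hlo j) (hhi j)) = vert hs' hW' := by
      refine Subtype.ext ?_
      have : gB s k (s * (k - 1) + j.1) = gW s k (s * (k - 1) + j.1) := by
        unfold gB
        rw [if_neg (by omega)]
      exact congrArg (im k) this
    rw [e1, e2]
    exact reach_WW hs hs' hk h (by omega) (hhi j) hW hW'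

end Pool.Agent.TH702.SG
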